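import Pool.Agent.R12.EMTQ1

set_option autoImplicit false

/-!
# Edge-magic total labelings of two disjoint copies of a cycle

For every `n ≥ 4` divisible by four, the disjoint union of two cycles of length `n` is edge-magic
total.
-/

namespace Pool.Agent.Results.MP_87e2cd_co.EqualCycles

open Pool.Agent.R12.EMT

/-- The disjoint union of two cycles of length `n` is edge-magic total for all `n ≥ 4` with
`n ≡ 0 (mod 4)`. -/
theorem result : ∀ n : ℕ, 4 ≤ n → 4 ∣ n →
    EdgeMagicTotal (SimpleGraph.cycleGraph n ⊕g SimpleGraph.cycleGraph n) := by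
  intro n h4 hd
  rcases Nat.lt_or_ge n 6 with h | h
  · obtain rfl : n = 4 := by omega
    exact emt44
  · obtain ⟨a, rfl⟩ : ∃ a, n = 6 + 2 * a := ⟨(n - 6) / 2, by omega⟩
    exact emt_even a

end Pool.Agent.Results.MP_87e2cd_co.EqualCycles
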